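import Mathlib
import Pool.Agent.Q80.MinMetric

/-!
# A domain whose minimal pseudometric is not continuous
-/

open Metric Set Filter Topology InnerProductSpace

namespace Pool.Agent.Results.MP_29b22c_an.Discontinuous

open Q80.MinMetric

/-- conformal harmonic maps of the unit disc into `Ω` -/
def CH {n : ℕ} (Ω : Set (EuclideanSpace ℝ (Fin n))) : Set (ℂ → EuclideanSpace ℝ (Fin n)) :=
  {f | HarmonicOnNhd f (ball 0 1) ∧ MapsTo f (ball 0 1) Ω ∧ ∀ z ∈ ball (0 : ℂ) 1,
    ‖fderiv ℝ f z 1‖ = ‖fderiv ℝ f z Complex.I‖ ∧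
    inner ℝ (fderiv ℝ f z 1) (fderiv ℝ f z Complex.I) = 0}

open Classical in
/-- the minimal pseudometric -/
noncomputable def g {n : ℕ} (Ω : Set (EuclideanSpace ℝ (Fin n)))
    (x u : EuclideanSpace ℝ (Fin n)) : ℝ :=
  if u = 0 then 0 else
    sInf {s | ∃ r : ℝ, 0 < r ∧ s = 1 / r ∧ ∃ f ∈ CH Ω, f 0 = x ∧ fderiv ℝ f 0 1 = r • u}

/-- affine map -/
noncomputable def aff {n : ℕ} (x a b : EuclideanSpace ℝ (Fin n)) (z : ℂ) :
    EuclideanSpace ℝ (Fin n) := x + (Complex.reCLM.smulRight a + Complex.imCLM.smulRight b) z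

lemma aff_apply {n : ℕ} (x a b : EuclideanSpace ℝ (Fin n)) (z : ℂ) :
    aff x a b z = x + (z.re • a + z.im • b) := rfl

lemma aff_harmonic {n : ℕ} (x a b : EuclideanSpace ℝ (Fin n)) (z : ℂ) : HarmonicAt (aff x a b) z := by
  have h1 : HarmonicAt (id : ℂ → ℂ) z := AnalyticAt.harmonicAt analyticAt_id
  have h2 := h1.comp_CLM (Complex.reCLM.smulRight a + Complex.imCLM.smulRight b)
  exact (harmonicAt_const x).add h2

lemma aff_fderiv {n : ℕ} (x a b : EuclideanSpace ℝ (Fin n)) (z : ℂ) :
    fderiv ℝ (aff x a b) z = Complex.reCLM.smulRight a + Complex.imCLM.smulRight b := by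
  have h : HasFDerivAt (aff x a b) (Complex.reCLM.smulRight a + Complex.imCLM.smulRight b) z :=
    (Complex.reCLM.smulRight a + Complex.imCLM.smulRight b).hasFDerivAt.const_add x
  exact h.fderiv

lemma aff_mem {n : ℕ} {Ω : Set (EuclideanSpace ℝ (Fin n))} {i j : Fin n} (hij : i ≠ j)
    {x : EuclideanSpace ℝ (Fin n)} {ρ : ℝ} (hρ : 0 < ρ)
    (hmap : ∀ y : EuclideanSpace ℝ (Fin n), ‖y‖ < ρ → (∀ k, k ≠ i → k ≠ j → y k = 0) → x + y ∈ Ω) :
    aff x (ρ • EuclideanSpace.single i 1) (ρ • EuclideanSpace.single j 1) ∈ CH Ω ∧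
    aff x (ρ • EuclideanSpace.single i 1) (ρ • EuclideanSpace.single j 1) 0 = x ∧
    fderiv ℝ (aff x (ρ • EuclideanSpace.single i 1) (ρ • EuclideanSpace.single j 1)) 0 1 =
      ρ • EuclideanSpace.single i 1 := by
  refine ⟨⟨fun z _ => aff_harmonic _ _ _ z, ?_, ?_⟩, ?_, ?_⟩
  · intro z hz
    rw [aff_apply]
    have hz' : ‖z‖ < 1 := mem_ball_zero_iff.1 hz
    apply hmap
    · have h1 : z.re • ρ • EuclideanSpace.single i (1 : ℝ) + z.im • ρ • EuclideanSpace.single j (1 : ℝ) =
          ρ • (z.re • EuclideanSpace.single i (1 : ℝ) + z.im • EuclideanSpace.single j (1 : ℝ)) := by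
        rw [smul_add, smul_comm, smul_comm z.im]
      rw [h1, norm_smul, Real.norm_of_nonneg hρ.le]
      have h2 : ‖z.re • EuclideanSpace.single i (1 : ℝ) + z.im • EuclideanSpace.single j (1 : ℝ)‖ ^ 2 =
          ‖z‖ ^ 2 := by
        rw [norm_add_sq_real, norm_smul, norm_smul, PiLp.norm_single,
          PiLp.norm_single, inner_smul_left, inner_smul_right,
          EuclideanSpace.inner_single_left, PiLp.single_apply, if_neg hij,
          Complex.sq_norm, Complex.normSq_apply]
        simp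
        ring
      have h3 : ‖z.re • EuclideanSpace.single i (1 : ℝ) + z.im • EuclideanSpace.single j (1 : ℝ)‖ = ‖z‖ :=
        (sq_eq_sq₀ (norm_nonneg _) (norm_nonneg _)).1 h2
      rw [h3]
      calc ρ * ‖z‖ < ρ * 1 := mul_lt_mul_of_pos_left hz' hρ
        _ = ρ := mul_one ρ
    · intro k hki hkj
      simp [hki, hkj]
  · intro z _
    rw [aff_fderiv]
    simp only [add_apply, ContinuousLinearMap.smulRight_apply,
      Complex.reCLM_apply, Complex.imCLM_apply, Complex.one_re, Complex.one_im, Complex.I_re,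
      Complex.I_im, one_smul, zero_smul, add_zero, zero_add]
    constructor
    · rw [norm_smul, norm_smul, PiLp.norm_single, PiLp.norm_single]
    · rw [inner_smul_left, inner_smul_right, EuclideanSpace.inner_single_left,
        PiLp.single_apply, if_neg hij]
      simp
  · rw [aff_apply]; simp
  · rw [aff_fderiv]
    simp

/-- a harmonic disc in the ball with slabs, compared with the compact sets of the induction -/
lemma deriv_bound {n : ℕ} {i : Fin n} {Ω : Set (EuclideanSpace ℝ (Fin n))}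
    {U K : ℕ → Set (EuclideanSpace ℝ (Fin n))} (hU : ∀ k, IsOpen (U k)) (hUm : Monotone U)
    (hUK : ∀ k, U k ⊆ K k) (hΩ : Ω ⊆ ⋃ k, U k) {M : ℝ} (hM : ∀ k, Bd i (K k) M) (hM0 : 0 ≤ M)
    {f : ℂ → EuclideanSpace ℝ (Fin n)} (hf : HarmonicOnNhd f (ball 0 1))
    (hmap : MapsTo f (ball 0 1) Ω) (hf0 : f 0 = 0) : (fderiv ℝ f 0 1) i ≤ M := by
  -- holomorphic lifts
  have hcomp : ∀ j : Fin n, HarmonicOnNhd (fun z => f z j) (ball (0 : ℂ) 1) := by
    intro j z hz
    exact (hf z hz).comp_CLM (EuclideanSpace.proj j : EuclideanSpace ℝ (Fin n) →L[ℝ] ℝ)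
  have hlift := fun j => (hcomp j).exists_analyticOnNhd_ball_re_eq
  choose F hFa hFre using hlift
  have h0mem : (0 : ℂ) ∈ ball (0 : ℂ) 1 := mem_ball_self one_pos
  have hF0 : ∀ j, (F j 0).re = 0 := by
    intro j
    have := hFre j h0mem
    simp only at this
    rw [this, hf0]; simp
  -- the derivative of `f_i`
  have hder : (fderiv ℝ f 0 1) i = (deriv (F i) 0).re := by
    have hdf : DifferentiableAt ℝ f 0 := (hf 0 h0mem).1.differentiableAt (by norm_num)
    have h1 : HasFDerivAt (fun z => f z i) ((EuclideanSpace.proj i : EuclideanSpace ℝ (Fin n) →L[ℝ] ℝ).comp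
        (fderiv ℝ f 0)) 0 :=
      (EuclideanSpace.proj i : EuclideanSpace ℝ (Fin n) →L[ℝ] ℝ).hasFDerivAt.comp 0 hdf.hasFDerivAt
    have h2 : HasDerivAt (F i) (deriv (F i) 0) 0 := ((hFa i) 0 h0mem).differentiableAt.hasDerivAt
    have h3 : HasFDerivAt (fun z => (F i z).re) (Complex.reCLM.comp
        ((ContinuousLinearMap.toSpanSingleton ℂ (deriv (F i) 0)).restrictScalars ℝ)) 0 :=
      Complex.reCLM.hasFDerivAt.comp 0 (h2.hasFDerivAt.restrictScalars ℝ)
    have h4 : (fun z => (F i z).re) =ᶠ[𝓝 0] fun z => f z i := by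
      filter_upwards [isOpen_ball.mem_nhds h0mem] with z hz
      exact hFre i hz
    have h5 := h1.unique (h3.congr_of_eventuallyEq h4.symm)
    have h6 := congrArg (fun L : ℂ →L[ℝ] ℝ => L 1) h5
    simpa using h6
  -- restrict to smaller discs
  have key : ∀ ρ : ℝ, 0 < ρ → ρ < 1 → ρ * (deriv (F i) 0).re ≤ M := by
    intro ρ h0 h1
    have hsub : closedBall (0 : ℂ) ρ ⊆ ball 0 1 := closedBall_subset_ball h1
    have hcont : ContinuousOn f (closedBall 0 ρ) := fun z hz =>
      (hf z (hsub hz)).1.continuousAt.continuousWithinAt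
    have hcpt : IsCompact (f '' closedBall 0 ρ) := (isCompact_closedBall _ _).image_of_continuousOn hcont
    have hcov : f '' closedBall 0 ρ ⊆ ⋃ k, U k := by
      rintro _ ⟨z, hz, rfl⟩
      exact hΩ (hmap (hsub hz))
    obtain ⟨k, hk⟩ := hcpt.elim_directed_cover U hU hcov hUm.directed_le
    have hscale : ∀ z ∈ ball (0 : ℂ) 1, (ρ : ℂ) * z ∈ closedBall (0 : ℂ) ρ := by
      intro z hz
      have hz' : ‖z‖ < 1 := mem_ball_zero_iff.1 hz
      rw [mem_closedBall_zero_iff, norm_mul, Complex.norm_real, Real.norm_of_nonneg h0.le]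
      nlinarith
    have h2 := hM k (fun j z => F j ((ρ : ℂ) * z) - F j 0) (fun j => by
      apply DifferentiableOn.sub_const
      have h3 : DifferentiableOn ℂ (F j) (ball 0 1) := (hFa j).differentiableOn
      refine h3.comp (by fun_prop) ?_
      intro z hz
      exact hsub (hscale z hz)) (fun z hz => by
      apply hUK k
      apply hk
      refine ⟨(ρ : ℂ) * z, hscale z hz, ?_⟩
      ext j
      rw [Rm_apply, Complex.sub_re, hF0 j, sub_zero]
      exact (hFre j (hsub (hscale z hz))).symm) (fun j => by simp)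
    have h4 : deriv (fun z => F i ((ρ : ℂ) * z) - F i 0) 0 = ρ * deriv (F i) 0 := by
      have h5 : HasDerivAt (F i) (deriv (F i) 0) ((ρ : ℂ) * 0) := by
        rw [mul_zero]
        exact ((hFa i) 0 h0mem).differentiableAt.hasDerivAt
      have h6 : HasDerivAt (fun z : ℂ => (ρ : ℂ) * z) (ρ : ℂ) 0 := by
        simpa using (hasDerivAt_id (0 : ℂ)).const_mul (ρ : ℂ)
      have h7 := (HasDerivAt.comp (0 : ℂ) h5 h6).sub_const (F i 0)
      rw [mul_comm]
      exact h7.deriv
    rw [h4, Complex.re_ofReal_mul] at h2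
    exact h2
  rw [hder]
  by_contra hcon
  push Not at hcon
  set D := (deriv (F i) 0).re with hD
  have hDpos : 0 < D := by linarith
  have h1 : M / D < 1 := (div_lt_one hDpos).2 hcon
  obtain ⟨ρ, h2, h3⟩ := exists_between h1
  have h4 : 0 < ρ := lt_of_le_of_lt (by positivity) h2
  have h5 := key ρ h4 h3
  rw [div_lt_iff₀ hDpos] at h2
  linarith

/-- heights of the slabs -/
noncomputable def ht (k : ℕ) : ℝ := 1 / ((k : ℝ) + 2)

lemma ht_pos (k : ℕ) : 0 < ht k := by unfold ht; positivity

lemma ht_le (k : ℕ) : ht k ≤ 1 / 2 := by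
  unfold ht
  apply one_div_le_one_div_of_le (by norm_num)
  linarith [(Nat.cast_nonneg k : (0 : ℝ) ≤ k)]

/-- the sequence of thicknesses -/
lemma exists_seq {n : ℕ} (i l : Fin n) : ∃ ε : ℕ → ℝ, (∀ k, 0 < ε k) ∧
    ∀ k, Bd i (closedBall 0 1 ∪ ⋃ j ∈ Finset.range k, cSlab l 20 (ht j) (ε j)) 5 := by
  let P : ℕ → Set (EuclideanSpace ℝ (Fin n)) → Prop := fun k K =>
    IsCompact K ∧ Bd i K (5 - (1 / 2) ^ k)
  have hstep : ∀ (k : ℕ) (K : {K : Set (EuclideanSpace ℝ (Fin n)) // P k K}),
      ∃ e : ℝ, 0 < e ∧ P (k + 1) (K.1 ∪ cSlab l 20 (ht k) e) := by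
    intro k K
    obtain ⟨e, he, h1⟩ := step (i := i) (l := l) (R := 20) K.2.1 K.2.2 (ht_pos k).ne'
      (δ := (1 / 2) ^ (k + 1)) (by positivity)
    refine ⟨e, he, K.2.1.union (cSlab_compact _ _ _ _), ?_⟩
    have h2 : (5 : ℝ) - (1 / 2) ^ k + (1 / 2) ^ (k + 1) = 5 - (1 / 2) ^ (k + 1) := by
      rw [pow_succ]; ring
    rw [h2] at h1
    exact h1
  choose e he hP using hstep
  let seq : (k : ℕ) → {K : Set (EuclideanSpace ℝ (Fin n)) // P k K} := fun k =>
    Nat.rec ⟨closedBall 0 1, isCompact_closedBall _ _, by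
      have := base (m := n) i
      norm_num
      exact this⟩ (fun k K => ⟨K.1 ∪ cSlab l 20 (ht k) (e k K), hP k K⟩) k
  have hseq : ∀ k, (seq k).1 = closedBall 0 1 ∪ ⋃ j ∈ Finset.range k, cSlab l 20 (ht j) (e j (seq j)) := by
    intro k
    induction k with
    | zero => simp [seq]
    | succ k ih =>
      have h1 : (seq (k + 1)).1 = (seq k).1 ∪ cSlab l 20 (ht k) (e k (seq k)) := rfl
      rw [h1, ih, Finset.range_add_one, Finset.set_biUnion_insert, union_assoc,
        union_comm (cSlab l 20 (ht k) (e k (seq k)))]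
  refine ⟨fun k => e k (seq k), fun k => he k (seq k), fun k => ?_⟩
  have h1 := (seq k).2.2
  rw [hseq k] at h1
  intro F h2 h3 h4
  have h5 := h1 F h2 h3 h4
  have h6 : (0 : ℝ) < (1 / 2) ^ k := by positivity
  linarith

/-- **Q1**: for every `n ≥ 3` there is a domain in `ℝⁿ` whose minimal pseudometric is not
continuous. -/
theorem result : ∀ n : ℕ, 3 ≤ n → ∃ Ω : Set (EuclideanSpace ℝ (Fin n)), IsOpen Ω ∧ IsConnected Ω ∧
    ¬ ContinuousOn (fun p : EuclideanSpace ℝ (Fin n) × EuclideanSpace ℝ (Fin n) => g Ω p.1 p.2)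
      (Ω ×ˢ univ) := by
  intro n hn
  set i : Fin n := ⟨0, by omega⟩ with hi
  set j : Fin n := ⟨1, by omega⟩ with hj
  set l : Fin n := ⟨2, by omega⟩ with hl
  have hij : i ≠ j := by simp [hi, hj]
  have hil : l ≠ i := by simp [hi, hl]
  have hjl : l ≠ j := by simp [hj, hl]
  obtain ⟨ε, hε, hBd⟩ := exists_seq i l
  set Ω : Set (EuclideanSpace ℝ (Fin n)) := ball 0 1 ∪ ⋃ k, oSlab l 20 (ht k) (ε k) with hΩ
  have hslab_conn : ∀ k, IsPreconnected (ball 0 1 ∪ oSlab l 20 (ht k) (ε k)) := by
    intro k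
    have h1 : Convex ℝ (oSlab l 20 (ht k) (ε k)) := by
      have h2 : oSlab l 20 (ht k) (ε k) = ball 0 20 ∩ (EuclideanSpace.proj l : EuclideanSpace ℝ (Fin n) →L[ℝ] ℝ) ⁻¹'
          ball (ht k) (ε k) := by
        ext x
        simp [oSlab, Real.dist_eq]
      rw [h2]
      exact (convex_ball _ _).inter ((convex_ball _ _).linear_preimage
        (EuclideanSpace.proj l : EuclideanSpace ℝ (Fin n) →L[ℝ] ℝ).toLinearMap)
    apply IsPreconnected.union (ht k • EuclideanSpace.single l 1)
    · rw [mem_ball_zero_iff, norm_smul, PiLp.norm_single, Real.norm_of_nonneg (ht_pos k).le]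
      have := ht_le k
      norm_num
      linarith
    · constructor
      · rw [norm_smul, PiLp.norm_single, Real.norm_of_nonneg (ht_pos k).le]
        have := ht_le k
        norm_num
        linarith
      · simp [hε k]
    · exact (convex_ball _ _).isPreconnected
    · exact h1.isPreconnected
  have h0Ω : (0 : EuclideanSpace ℝ (Fin n)) ∈ Ω := Or.inl (mem_ball_self one_pos)
  refine ⟨Ω, isOpen_ball.union (isOpen_iUnion fun k => oSlab_open _ _ _ _), ⟨⟨0, h0Ω⟩, ?_⟩, ?_⟩
  · have h1 : Ω = ⋃ k, (ball 0 1 ∪ oSlab l 20 (ht k) (ε k)) := by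
      rw [← union_iUnion]
    rw [h1]
    exact isPreconnected_iUnion ⟨0, mem_iInter.2 fun k => Or.inl (mem_ball_self one_pos)⟩ hslab_conn
  · -- discontinuity
    set e1 : EuclideanSpace ℝ (Fin n) := EuclideanSpace.single i 1 with he1
    have he1ne : e1 ≠ 0 := by
      intro h
      have := congrArg (fun x : EuclideanSpace ℝ (Fin n) => x i) h
      simp [he1] at this
    -- lower bound at `0`
    have hlow : 1 / 5 ≤ g Ω 0 e1 := by
      unfold g
      rw [if_neg he1ne]
      apply le_csInf
      · obtain ⟨h1, h2, h3⟩ := aff_mem (Ω := Ω) (x := 0) hij (ρ := 1 / 2) (by norm_num) (by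
          intro y hy _
          left
          rw [zero_add, mem_ball_zero_iff]
          linarith)
        exact ⟨_, 1 / 2, by norm_num, rfl, _, h1, h2, h3⟩
      · rintro s ⟨r, hr, rfl, f, hf, hf0, hfd⟩
        have h1 := deriv_bound (i := i) (Ω := Ω)
          (U := fun k => ball 0 1 ∪ ⋃ j ∈ Finset.range k, oSlab l 20 (ht j) (ε j))
          (K := fun k => closedBall 0 1 ∪ ⋃ j ∈ Finset.range k, cSlab l 20 (ht j) (ε j))
          (fun k => isOpen_ball.union (isOpen_biUnion fun j _ => oSlab_open _ _ _ _))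
          (by
            intro a b hab
            apply union_subset_union_right
            apply biUnion_subset_biUnion_left
            intro x hx
            rw [Finset.mem_coe, Finset.mem_range] at hx ⊢
            omega)
          (by
            intro k
            apply union_subset_union ball_subset_closedBall
            apply biUnion_mono (fun _ h => h)
            intro j _ x hx
            exact ⟨hx.1.le, hx.2.le⟩)
          (by
            rintro x (hx | hx)
            · exact mem_iUnion.2 ⟨0, Or.inl hx⟩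
            · obtain ⟨k, hk⟩ := mem_iUnion.1 hx
              refine mem_iUnion.2 ⟨k + 1, Or.inr ?_⟩
              exact mem_biUnion (Finset.mem_coe.2 (Finset.mem_range.2 (Nat.lt_succ_self k))) hk)
          hBd (by norm_num) hf.1 hf.2.1 hf0
        rw [hfd] at h1
        have h2 : (r • e1) i = r := by simp [he1]
        rw [h2] at h1
        exact one_div_le_one_div_of_le hr h1
    -- upper bound at `ht k • e_l`
    have hup : ∀ k, g Ω (ht k • EuclideanSpace.single l 1) e1 ≤ 1 / 10 := by
      intro k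
      unfold g
      rw [if_neg he1ne]
      apply csInf_le
      · refine ⟨0, ?_⟩
        rintro s ⟨r, hr, rfl, -⟩
        positivity
      · obtain ⟨h1, h2, h3⟩ := aff_mem (Ω := Ω) (x := ht k • EuclideanSpace.single l 1) hij
          (ρ := 10) (by norm_num) (by
          intro y hy hy0
          right
          refine mem_iUnion.2 ⟨k, ?_, ?_⟩
          · calc ‖ht k • EuclideanSpace.single l (1 : ℝ) + y‖ ≤ ‖ht k • EuclideanSpace.single l (1 : ℝ)‖ + ‖y‖ :=
                  norm_add_le _ _
              _ < 20 := by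
                  rw [norm_smul, PiLp.norm_single, Real.norm_of_nonneg (ht_pos k).le]
                  have := ht_le k
                  norm_num
                  linarith
          · have h4 := hy0 l hil hjl
            have h5 : (ht k • EuclideanSpace.single l (1 : ℝ) + y) l - ht k = 0 := by
              simp [h4]
            rw [h5, abs_zero]
            exact hε k)
        exact ⟨10, by norm_num, rfl, _, h1, h2, h3⟩
    intro hcont
    have h1 := hcont (0, e1) ⟨h0Ω, mem_univ _⟩
    have h2 : Tendsto (fun k : ℕ => ((ht k • EuclideanSpace.single l (1 : ℝ), e1) :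
        EuclideanSpace ℝ (Fin n) × EuclideanSpace ℝ (Fin n))) atTop (𝓝[Ω ×ˢ univ] (0, e1)) := by
      rw [tendsto_nhdsWithin_iff]
      constructor
      · apply Tendsto.prodMk_nhds _ tendsto_const_nhds
        have h3 : Tendsto ht atTop (𝓝 0) := by
          unfold ht
          have h4 : Tendsto (fun k : ℕ => (k : ℝ) + 2) atTop atTop :=
            tendsto_atTop_add_const_right _ _ tendsto_natCast_atTop_atTop
          simp only [one_div]
          exact h4.inv_tendsto_atTop
        have h5 := h3.smul_const (EuclideanSpace.single l (1 : ℝ) : EuclideanSpace ℝ (Fin n))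
        rwa [zero_smul] at h5
      · apply Eventually.of_forall
        intro k
        refine ⟨Or.inl ?_, mem_univ _⟩
        rw [mem_ball_zero_iff, norm_smul, PiLp.norm_single, Real.norm_of_nonneg (ht_pos k).le]
        have := ht_le k
        norm_num
        linarith
    have h3 := h1.tendsto.comp h2
    have h4 := le_of_tendsto h3 (Eventually.of_forall hup)
    simp only at h4
    linarith

end Pool.Agent.Results.MP_29b22c_an.Discontinuous
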